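import Pool.Agent.H25.HK.Targets

/-!
# (HE) Hecke's functional equation
-/

set_option autoImplicit false

open NumberField NumberField.InfinitePlace NumberField.Units
  NumberField.Units.dirichletUnitTheorem MeasureTheory Set Filter Complex
open scoped nonZeroDivisors ENNReal

namespace Pool.Agent.H25.HK

/-- sums over a partition of the nonzero ideals -/
lemma sum_partition {A : Type*} (Q₀ : A → Prop) {ι : Type} [Fintype ι] (Q : ι → A → Prop)
    (hQ : ∀ c I, Q c I → Q₀ I) (hex : ∀ I, Q₀ I → ∃! c, Q c I) (f : A → ℂ)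
    (hf : Summable fun I : {I // Q₀ I} => ‖f I‖) :
    ∑ c, ∑' I : {I // Q c I}, f I = ∑' I : {I // Q₀ I}, f I := by
  let e : (Σ c, {I // Q c I}) ≃ {I // Q₀ I} := Equiv.ofBijective (fun x => ⟨x.2.1, hQ _ _ x.2.2⟩)
    (by
      constructor
      · rintro ⟨c, I, hI⟩ ⟨c', I', hI'⟩ h
        have h1 : I = I' := congrArg Subtype.val h
        subst h1
        obtain ⟨c₀, -, huniq⟩ := hex I (hQ _ _ hI)
        have h2 : c = c' := (huniq c hI).trans (huniq c' hI').symm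
        subst h2
        rfl
      · rintro ⟨I, hI⟩
        obtain ⟨c, hc, -⟩ := hex I hI
        exact ⟨⟨c, I, hc⟩, rfl⟩)
  have hf' : Summable fun x : (Σ c, {I // Q c I}) => f x.2 := by
    have h1 : Summable fun I : {I // Q₀ I} => f I := hf.of_norm
    exact (e.summable_iff (f := fun I : {I // Q₀ I} => f I)).2 h1
  rw [← e.tsum_eq (fun I : {I // Q₀ I} => f I)]
  have h2 := hf'.tsum_sigma (f := fun x : (Σ c, {I // Q c I}) => f x.2)
  change _ = ∑' x : (Σ c, {I // Q c I}), f x.2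
  rw [h2, tsum_fintype]

lemma Gammaℝ_ne_of_im {s : ℂ} (hs : s.im ≠ 0) : Gammaℝ s ≠ 0 := by
  rw [Ne, Gammaℝ_eq_zero_iff]
  rintro ⟨n, hn⟩
  apply hs
  rw [hn]
  simp

lemma Gammaℂ_eq (s : ℂ) : Gammaℂ s = Gammaℝ s * Gammaℝ (s + 1) :=
  (Gammaℝ_mul_Gammaℝ_add_one s).symm

lemma gK_inv_differentiable (K : Type) [Field K] [NumberField K] :
    Differentiable ℂ fun s => (gK K s)⁻¹ := by
  have h1 : (fun s => (gK K s)⁻¹) = fun s => (Gammaℝ s)⁻¹ ^ nrRealPlaces K *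
      ((Gammaℝ s)⁻¹ * (Gammaℝ (s + 1))⁻¹) ^ nrComplexPlaces K := by
    funext s
    unfold gK
    rw [Gammaℂ_eq, mul_inv, inv_pow, ← inv_pow (Gammaℝ s * Gammaℝ (s + 1)), mul_inv]
  rw [h1]
  have h2 : Differentiable ℂ fun s => (Gammaℝ s)⁻¹ := differentiable_Gammaℝ_inv
  have h3 : Differentiable ℂ fun s => (Gammaℝ (s + 1))⁻¹ :=
    h2.comp (differentiable_id.add_const 1)
  exact (h2.pow _).mul ((h2.mul h3).pow _)

lemma gK_ne_of_im (K : Type) [Field K] [NumberField K] {s : ℂ} (hs : s.im ≠ 0) :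
    gK K s ≠ 0 := by
  unfold gK
  rw [Gammaℂ_eq]
  have h1 := Gammaℝ_ne_of_im hs
  have h2 : Gammaℝ (s + 1) ≠ 0 := Gammaℝ_ne_of_im (by simpa using hs)
  exact mul_ne_zero (pow_ne_zero _ h1) (pow_ne_zero _ (mul_ne_zero h1 h2))

lemma gK_ne_of_re (K : Type) [Field K] [NumberField K] {s : ℂ} (hs : 1 < s.re) :
    gK K s ≠ 0 := by
  unfold gK
  rw [Gammaℂ_eq]
  have h1 : Gammaℝ s ≠ 0 := Gammaℝ_ne_zero_of_re_pos (by linarith)
  have h2 : Gammaℝ (s + 1) ≠ 0 := Gammaℝ_ne_zero_of_re_pos (by simp; linarith)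
  exact mul_ne_zero (pow_ne_zero _ h1) (pow_ne_zero _ (mul_ne_zero h1 h2))

open scoped Classical in
theorem he (hWP : T_WP) (hME : T_ME) (hCS : T_CS) (hDS : T_DS) (hDU : T_DU) (hBD : T_BD) :
    T_HE := by
  intro K _ _
  obtain ⟨ι, hι, M, hM0, hM1, hM2⟩ := hCS K
  choose P hPf hPg hPk hPε hPf0 hPg0 using fun c => hWP K (M c) (hM0 c)
  obtain ⟨c0, hc0⟩ : ∃ c0 : ℂ, c0 = (torsionOrder K : ℂ) *
    ((2 : ℂ) ^ (nrRealPlaces K + nrComplexPlaces K))⁻¹ := ⟨_, rfl⟩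
  have hc0' : c0 ≠ 0 := by
    rw [hc0]
    have h1 : (torsionOrder K : ℂ) ≠ 0 := by
      exact_mod_cast (torsionOrder_pos K).ne'
    exact mul_ne_zero h1 (inv_ne_zero (pow_ne_zero _ two_ne_zero))
  obtain ⟨N, hN⟩ : ∃ N : ι → ℝ, N = fun c => (FractionalIdeal.absNorm (M c) : ℝ) := ⟨_, rfl⟩
  obtain ⟨N', hN'⟩ : ∃ N' : ι → ℝ, N' = fun c => (FractionalIdeal.absNorm (du K (M c)) : ℝ) :=
    ⟨_, rfl⟩
  have hN0 : ∀ c, 0 < N c := fun c => by rw [hN]; exact (hDU K (M c) (hM0 c)).2.2.2.1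
  have hd0 : 0 < |(discr K : ℝ)| := abs_pos.2 (by exact_mod_cast discr_ne_zero K)
  have hNN : ∀ c, N' c * N c * |(discr K : ℝ)| = 1 := fun c => by
    rw [hN, hN']; exact (hDU K (M c) (hM0 c)).2.2.2.2
  have hN'0 : ∀ c, 0 < N' c := fun c => by
    have h1 := hNN c
    by_contra h2
    have h3 : N' c * N c * |(discr K : ℝ)| ≤ 0 := by
      have h4 : N' c ≤ 0 := not_lt.1 h2
      have := hN0 c
      nlinarith [mul_pos this hd0]
    linarith
  -- the Mellin transforms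
  have hΛ : ∀ c (s : ℂ), 1 < s.re → (P c).Λ s = c0 * gK K s * ((N c : ℝ) : ℂ) ^ (-s) *
      ∑' I : {I : Ideal (𝓞 K) // Pri K (M c) I}, (Ideal.absNorm I.1 : ℂ) ^ (-s) := by
    intro c s hs
    have h1 := ((P c).hasMellin (s := s) (by rw [hPk]; exact hs)).2
    rw [← h1]
    have h2 : (fun x => (P c).f x - (P c).f₀) =
        fun t => (ff K (M c) t : ℂ) - (volume.real (Fd K) : ℝ) := by
      funext t
      rw [hPf, hPf0]
    rw [h2, hME K (M c) (hM0 c) s hs, hc0, hN]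
  have hΛ' : ∀ c (s : ℂ), 1 < s.re → (P c).symm.Λ s = c0 * gK K s * ((N' c : ℝ) : ℂ) ^ (-s) *
      ∑' I : {I : Ideal (𝓞 K) // Pri K (du K (M c)) I}, (Ideal.absNorm I.1 : ℂ) ^ (-s) := by
    intro c s hs
    have h1 := ((P c).symm.hasMellin (s := s) (by
      change (P c).k < s.re
      rw [hPk]; exact hs)).2
    rw [← h1]
    have h2 : (fun x => (P c).symm.f x - (P c).symm.f₀) =
        fun t => (ff K (du K (M c)) t : ℂ) - (volume.real (Fd K) : ℝ) := by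
      funext t
      change (P c).g t - (P c).g₀ = _
      rw [hPg, hPg0]
    rw [h2, hME K (du K (M c)) (hDU K (M c) (hM0 c)).1 s hs, hc0, hN']
  have hΛd : ∀ c (s : ℂ), s.im ≠ 0 → DifferentiableAt ℂ (P c).Λ s := by
    intro c s hs
    refine (P c).differentiableAt_Λ (Or.inl ?_) (Or.inl ?_)
    · rintro rfl; simp at hs
    · rintro rfl; simp at hs
  obtain ⟨ΛK, hΛK⟩ : ∃ ΛK : ℂ → ℂ, ΛK = fun s => ∑ c, ((N c : ℝ) : ℂ) ^ s * (P c).Λ s := ⟨_, rfl⟩
  have hcancel : ∀ (x : ℝ) (s : ℂ), 0 < x → ((x : ℝ) : ℂ) ^ s * ((x : ℝ) : ℂ) ^ (-s) = 1 := by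
    intro x s hx
    rw [← cpow_add _ _ (by exact_mod_cast hx.ne'), add_neg_cancel, cpow_zero]
  have hΛK1 : ∀ s : ℂ, 1 < s.re → ΛK s = c0 * gK K s * dedekindZeta K s := by
    intro s hs
    obtain ⟨h1, h2⟩ := hDS K s hs
    rw [hΛK, h2, ← sum_partition (fun I : Ideal (𝓞 K) => I ≠ ⊥) (fun c I => Pri K (M c) I)
      (fun c I h => h.1) hM1 (fun I => (Ideal.absNorm I : ℂ) ^ (-s)) h1, Finset.mul_sum]
    refine Finset.sum_congr rfl fun c _ => ?_
    rw [hΛ c s hs]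
    have h3 := hcancel (N c) s (hN0 c)
    calc ((N c : ℝ) : ℂ) ^ s * (c0 * gK K s * ((N c : ℝ) : ℂ) ^ (-s) *
          ∑' I : {I : Ideal (𝓞 K) // Pri K (M c) I}, (Ideal.absNorm I.1 : ℂ) ^ (-s))
        = (((N c : ℝ) : ℂ) ^ s * ((N c : ℝ) : ℂ) ^ (-s)) * (c0 * gK K s *
          ∑' I : {I : Ideal (𝓞 K) // Pri K (M c) I}, (Ideal.absNorm I.1 : ℂ) ^ (-s)) := by ring
      _ = _ := by rw [h3, one_mul]
  have hΛK2 : ∀ s : ℂ, 1 < s.re → ∑ c, ((N' c : ℝ) : ℂ) ^ s * (P c).symm.Λ s =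
      c0 * gK K s * dedekindZeta K s := by
    intro s hs
    obtain ⟨h1, h2⟩ := hDS K s hs
    rw [h2, ← sum_partition (fun I : Ideal (𝓞 K) => I ≠ ⊥) (fun c I => Pri K (du K (M c)) I)
      (fun c I h => h.1) hM2 (fun I => (Ideal.absNorm I : ℂ) ^ (-s)) h1, Finset.mul_sum]
    refine Finset.sum_congr rfl fun c _ => ?_
    rw [hΛ' c s hs]
    have h3 := hcancel (N' c) s (hN'0 c)
    calc ((N' c : ℝ) : ℂ) ^ s * (c0 * gK K s * ((N' c : ℝ) : ℂ) ^ (-s) *
          ∑' I : {I : Ideal (𝓞 K) // Pri K (du K (M c)) I}, (Ideal.absNorm I.1 : ℂ) ^ (-s))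
        = (((N' c : ℝ) : ℂ) ^ s * ((N' c : ℝ) : ℂ) ^ (-s)) * (c0 * gK K s *
          ∑' I : {I : Ideal (𝓞 K) // Pri K (du K (M c)) I}, (Ideal.absNorm I.1 : ℂ) ^ (-s)) := by
          ring
      _ = _ := by rw [h3, one_mul]
  -- differentiability of `ΛK`
  have hΛKd : ∀ s : ℂ, s.im ≠ 0 → DifferentiableAt ℂ ΛK s := by
    intro s hs
    rw [hΛK]
    refine DifferentiableAt.fun_sum fun c _ => ?_
    have h1 : DifferentiableAt ℂ (fun s : ℂ => ((N c : ℝ) : ℂ) ^ s) s :=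
      (differentiableAt_id).const_cpow (Or.inl (by exact_mod_cast (hN0 c).ne'))
    exact h1.mul (hΛd c s hs)
  -- functional equation for `re s > 1`
  have hfe1 : ∀ s : ℂ, 1 < s.re → ΛK (1 - s) =
      ((|(discr K : ℝ)| : ℝ) : ℂ) ^ (s - 1 / 2) * ΛK s := by
    intro s hs
    rw [hΛK1 s hs, ← hΛK2 s hs, hΛK, Finset.mul_sum]
    refine Finset.sum_congr rfl fun c _ => ?_
    have h1 := (P c).functional_equation s
    rw [hPk, ofReal_one, hPε] at h1
    rw [h1, smul_eq_mul, ← mul_assoc, ← mul_assoc]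
    congr 1
    -- `N^{1-s} cv^{-1} = |d|^{s-1/2} N'^s`
    obtain ⟨D, hD⟩ : ∃ D : ℝ, D = |(discr K : ℝ)| := ⟨_, rfl⟩
    have hcv : cv K (M c) = D ^ (1 / 2 : ℝ) * N c := by
      unfold cv
      rw [← hD, hN, Real.sqrt_eq_rpow]
    have hN'e : N' c = (N c)⁻¹ * D⁻¹ := by
      have h2 := hNN c
      rw [← hD] at h2 hd0
      have h3 := (hN0 c).ne'
      have h4 := hd0.ne'
      field_simp
      linarith
    rw [← hD] at hd0 ⊢
    rw [hcv, hN'e]
    have hNc := hN0 c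
    have e1 : ((N c : ℝ) : ℂ) ^ (1 - s) = cexp (Real.log (N c) * (1 - s)) := by
      rw [cpow_def_of_ne_zero (by exact_mod_cast hNc.ne'), ← ofReal_log hNc.le]
    have e2 : (((D ^ (1 / 2 : ℝ) * N c)⁻¹ : ℝ) : ℂ) =
        cexp (-(Real.log D * (1 / 2) + Real.log (N c))) := by
      have h5 : (D ^ (1 / 2 : ℝ) * N c)⁻¹ = Real.exp (-(Real.log D * (1 / 2) + Real.log (N c))) := by
        rw [Real.exp_neg, Real.exp_add, Real.exp_log hNc, Real.rpow_def_of_pos hd0]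
      rw [h5, ofReal_exp]
      push_cast
      rfl
    have e3 : ((D : ℝ) : ℂ) ^ (s - 1 / 2) = cexp (Real.log D * (s - 1 / 2)) := by
      rw [cpow_def_of_ne_zero (by exact_mod_cast hd0.ne'), ← ofReal_log hd0.le]
    have e4 : (((N c)⁻¹ * D⁻¹ : ℝ) : ℂ) ^ s = cexp (-(Real.log (N c) + Real.log D) * s) := by
      have h6 : 0 < (N c)⁻¹ * D⁻¹ := by positivity
      rw [cpow_def_of_ne_zero (by exact_mod_cast h6.ne'), ← ofReal_log h6.le,
        Real.log_mul (inv_ne_zero hNc.ne') (inv_ne_zero hd0.ne'), Real.log_inv, Real.log_inv]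
      congr 1
      push_cast
      ring
    rw [e1, e2, e3, e4, ← Complex.exp_add, ← Complex.exp_add]
    congr 1
    ring
  -- functional equation in the upper half plane
  have hU : IsOpen {s : ℂ | 0 < s.im} := isOpen_lt continuous_const Complex.continuous_im
  have hUc : IsPreconnected {s : ℂ | 0 < s.im} := (convex_halfSpace_im_gt 0).isPreconnected
  have hfe2 : ∀ s : ℂ, 0 < s.im → ΛK (1 - s) =
      ((|(discr K : ℝ)| : ℝ) : ℂ) ^ (s - 1 / 2) * ΛK s := by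
    have h1 : DifferentiableOn ℂ (fun s => ΛK (1 - s)) {s : ℂ | 0 < s.im} := by
      intro s hs
      have h2 : DifferentiableAt ℂ ΛK (1 - s) := hΛKd _ (by
        have : 0 < s.im := hs
        simp
        exact this.ne')
      have h3 : DifferentiableAt ℂ (fun s : ℂ => 1 - s) s := by fun_prop
      exact (h2.comp s h3).differentiableWithinAt
    have h2 : DifferentiableOn ℂ (fun s => ((|(discr K : ℝ)| : ℝ) : ℂ) ^ (s - 1 / 2) * ΛK s)
        {s : ℂ | 0 < s.im} := by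
      intro s hs
      have h3 : DifferentiableAt ℂ (fun s : ℂ => ((|(discr K : ℝ)| : ℝ) : ℂ) ^ (s - 1 / 2)) s :=
        (differentiableAt_id.sub_const _).const_cpow (Or.inl (by exact_mod_cast hd0.ne'))
      exact (h3.mul (hΛKd s (ne_of_gt hs))).differentiableWithinAt
    have h3 := (h1.analyticOnNhd hU).eqOn_of_preconnected_of_eventuallyEq (h2.analyticOnNhd hU) hUc
      (z₀ := 2 + I) (by simp) (by
        have h4 : {s : ℂ | 1 < s.re} ∈ nhds (2 + I) :=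
          (isOpen_lt continuous_const Complex.continuous_re).mem_nhds (by simp)
        filter_upwards [h4] with s hs
        exact hfe1 s hs)
    exact h3
  -- the zeta function
  refine ⟨fun s => c0⁻¹ * (gK K s)⁻¹ * ΛK s, ⟨fun s hs => ?_, fun s hs => ?_⟩, ?_, ?_⟩
  · exact (((gK_inv_differentiable K s).const_mul c0⁻¹)).mul (hΛKd s hs)
  · simp only
    rw [hΛK1 s hs]
    have := gK_ne_of_re K hs
    field_simp
  · -- functional equation
    have hc : ∀ s : ℂ, s.im ≠ 0 → comp K (fun s => c0⁻¹ * (gK K s)⁻¹ * ΛK s) s =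
        ((|(discr K : ℝ)| : ℝ) : ℂ) ^ (s / 2) * c0⁻¹ * ΛK s := by
      intro s hs
      unfold comp
      have := gK_ne_of_im K hs
      field_simp
    have hup : ∀ s : ℂ, 0 < s.im → comp K (fun s => c0⁻¹ * (gK K s)⁻¹ * ΛK s) s =
        comp K (fun s => c0⁻¹ * (gK K s)⁻¹ * ΛK s) (1 - s) := by
      intro s hs
      rw [hc s hs.ne', hc (1 - s) (by simp; exact hs.ne'), hfe2 s hs]
      have h1 : ((|(discr K : ℝ)| : ℝ) : ℂ) ^ ((1 - s) / 2) *
          ((|(discr K : ℝ)| : ℝ) : ℂ) ^ (s - 1 / 2) = ((|(discr K : ℝ)| : ℝ) : ℂ) ^ (s / 2) := by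
        rw [← cpow_add _ _ (by exact_mod_cast hd0.ne')]
        congr 1
        ring
      rw [← h1]
      ring
    intro s hs
    rcases lt_or_gt_of_ne hs with h | h
    · have h1 := hup (1 - s) (by simp; exact h)
      rw [sub_sub_cancel] at h1
      exact h1.symm
    · exact hup s h
  · -- boundedness
    intro b
    choose Cb hCb using fun c => hBD (P c) b
    obtain ⟨lD, hlD⟩ : ∃ lD : ℝ, lD = Real.log |(discr K : ℝ)| := ⟨_, rfl⟩
    refine ⟨Real.exp (|lD| * (|b| / 2)) * ‖c0⁻¹‖ *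
      ∑ c, Real.exp (|Real.log (N c)| * |b|) * (Cb c + ‖(P c).f₀‖ + ‖(P c).ε‖ * ‖(P c).g₀‖),
      fun s hs him => ?_⟩
    have hs0 : s.im ≠ 0 := by
      intro h
      rw [h, abs_zero] at him
      linarith
    have hb : |s.re| ≤ |b| := hs.trans (le_abs_self b)
    have hcp : ∀ (x : ℝ) (w : ℂ) (B : ℝ), 0 < x → |w.re| ≤ B →
        ‖((x : ℝ) : ℂ) ^ w‖ ≤ Real.exp (|Real.log x| * B) := by
      intro x w B hx hw
      rw [norm_cpow_eq_rpow_re_of_pos hx, Real.rpow_def_of_pos hx]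
      refine Real.exp_le_exp.2 ?_
      calc Real.log x * w.re ≤ |Real.log x * w.re| := le_abs_self _
        _ = |Real.log x| * |w.re| := abs_mul _ _
        _ ≤ |Real.log x| * B := by gcongr
    unfold comp
    have h1 : ((|(discr K : ℝ)| : ℝ) : ℂ) ^ (s / 2) * gK K s * (c0⁻¹ * (gK K s)⁻¹ * ΛK s) =
        ((|(discr K : ℝ)| : ℝ) : ℂ) ^ (s / 2) * c0⁻¹ * ΛK s := by
      have := gK_ne_of_im K hs0
      field_simp
    rw [h1, norm_mul, norm_mul]
    have h2 : ‖((|(discr K : ℝ)| : ℝ) : ℂ) ^ (s / 2)‖ ≤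
        Real.exp (|lD| * (|b| / 2)) := by
      rw [hlD]
      refine hcp _ _ _ hd0 ?_
      have : (s / 2).re = s.re / 2 := by simp
      rw [this, abs_div, abs_two]
      linarith
    have h3 : ‖ΛK s‖ ≤ ∑ c, Real.exp (|Real.log (N c)| * |b|) *
        (Cb c + ‖(P c).f₀‖ + ‖(P c).ε‖ * ‖(P c).g₀‖) := by
      rw [hΛK]
      refine (norm_sum_le _ _).trans (Finset.sum_le_sum fun c _ => ?_)
      rw [norm_mul]
      have h4 := hcp (N c) s |b| (hN0 c) hb
      have h5 : ‖(P c).Λ s‖ ≤ Cb c + ‖(P c).f₀‖ + ‖(P c).ε‖ * ‖(P c).g₀‖ := by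
        have h6 : (P c).Λ s = (P c).Λ₀ s - (1 / s) • (P c).f₀ -
            ((P c).ε / ((P c).k - s)) • (P c).g₀ := rfl
        rw [h6]
        have h7 : ‖(1 / s) • (P c).f₀‖ ≤ ‖(P c).f₀‖ := by
          rw [norm_smul, norm_div, norm_one]
          have h8 : 1 ≤ ‖s‖ := him.trans (abs_im_le_norm s)
          have h9 : 1 / ‖s‖ ≤ 1 := by
            rw [div_le_one (by linarith)]
            exact h8
          have := norm_nonneg (P c).f₀
          nlinarith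
        have h8 : ‖((P c).ε / ((P c).k - s)) • (P c).g₀‖ ≤ ‖(P c).ε‖ * ‖(P c).g₀‖ := by
          rw [norm_smul, norm_div]
          have h9 : 1 ≤ ‖((P c).k : ℂ) - s‖ := by
            refine him.trans ?_
            have h10 := abs_im_le_norm (((P c).k : ℂ) - s)
            simpa using h10
          have h10 : ‖(P c).ε‖ / ‖((P c).k : ℂ) - s‖ ≤ ‖(P c).ε‖ :=
            div_le_self (norm_nonneg _) h9
          gcongr
        calc ‖(P c).Λ₀ s - (1 / s) • (P c).f₀ - ((P c).ε / ((P c).k - s)) • (P c).g₀‖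
            ≤ ‖(P c).Λ₀ s - (1 / s) • (P c).f₀‖ + ‖((P c).ε / ((P c).k - s)) • (P c).g₀‖ :=
              norm_sub_le _ _
          _ ≤ ‖(P c).Λ₀ s‖ + ‖(1 / s) • (P c).f₀‖ + ‖((P c).ε / ((P c).k - s)) • (P c).g₀‖ := by
              gcongr
              exact norm_sub_le _ _
          _ ≤ Cb c + ‖(P c).f₀‖ + ‖(P c).ε‖ * ‖(P c).g₀‖ := by
              have := hCb c s hs
              gcongr
      gcongr
    gcongr

end Pool.Agent.H25.HK
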