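import Pool.Agent.H25.HK.Targets
import Pool.Agent.H48.DL.AF
import Pool.Agent.H48.DL.Ord
import Pool.Agent.H62.DL.EU

/-!
# (AA) an Artin L-function with rational character as an `LF`
-/

set_option autoImplicit false

open NumberField NumberField.InfinitePlace Complex Filter

namespace Pool.Agent.H25.HK

open Pool.Agent.H25.DL

/-! ### involutions -/

lemma trace_involution {V : Type} [AddCommGroup V] [Module ℂ V] [FiniteDimensional ℂ V]
    (T : Module.End ℂ V) (hT : T * T = 1) : ∃ a b : ℕ, a + b = Module.finrank ℂ V ∧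
      LinearMap.trace ℂ V T = (a : ℂ) - (b : ℂ) := by
  obtain ⟨P, hP⟩ : ∃ P : Module.End ℂ V, P = (1 / 2 : ℂ) • (1 + T) := ⟨_, rfl⟩
  have hPP : P * P = P := by
    have h1 : (1 + T) * (1 + T) = (2 : ℂ) • (1 + T) := by
      have : (1 + T) * (1 + T) = 1 + T + (T + T * T) := by
        simp only [add_mul, mul_add, one_mul, mul_one]
      rw [this, hT, two_smul]
      abel
    rw [hP, smul_mul_smul_comm, h1, smul_smul]
    norm_num
  have hproj : LinearMap.IsProj (LinearMap.range P) P := by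
    refine ⟨fun x => LinearMap.mem_range_self P x, ?_⟩
    rintro _ ⟨y, rfl⟩
    exact congrFun (congrArg DFunLike.coe hPP) y
  have htr : LinearMap.trace ℂ V P = (Module.finrank ℂ (LinearMap.range P) : ℂ) := hproj.trace
  have hle : Module.finrank ℂ (LinearMap.range P) ≤ Module.finrank ℂ V :=
    Submodule.finrank_le _
  refine ⟨Module.finrank ℂ (LinearMap.range P),
    Module.finrank ℂ V - Module.finrank ℂ (LinearMap.range P), by omega, ?_⟩
  have h1 : LinearMap.trace ℂ V P = (1 / 2 : ℂ) * ((Module.finrank ℂ V : ℂ) +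
      LinearMap.trace ℂ V T) := by
    rw [hP, map_smul, map_add, smul_eq_mul]
    congr 2
    exact LinearMap.trace_one ℂ V
  rw [htr] at h1
  rw [Nat.cast_sub hle]
  linear_combination (-2 : ℂ) * h1

/-! ### polynomial bounds -/

/-- polynomial growth in vertical strips -/
def PB (f : ℂ → ℂ) : Prop :=
  ∀ b : ℝ, ∃ C : ℝ, 0 < C ∧ ∀ s : ℂ, |s.re| ≤ b → 1 ≤ s.im → ‖f s‖ ≤ C * s.im ^ C

lemma pb_one : PB fun _ => 1 := fun b => ⟨1, one_pos, fun s _ h => by
  rw [norm_one, one_mul, Real.rpow_one]; exact h⟩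

lemma pb_mul {f g : ℂ → ℂ} (hf : PB f) (hg : PB g) : PB fun s => f s * g s := by
  intro b
  obtain ⟨C, hC, h1⟩ := hf b
  obtain ⟨D, hD, h2⟩ := hg b
  refine ⟨max (C * D) (C + D), lt_max_of_lt_left (by positivity), fun s hs him => ?_⟩
  rw [norm_mul]
  have him0 : 0 < s.im := by linarith
  have e1 := h1 s hs him
  have e2 := h2 s hs him
  have p1 : 0 ≤ s.im ^ C := Real.rpow_nonneg him0.le _
  have p2 : 0 ≤ s.im ^ D := Real.rpow_nonneg him0.le _
  calc ‖f s‖ * ‖g s‖ ≤ (C * s.im ^ C) * (D * s.im ^ D) := by gcongr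
    _ = (C * D) * s.im ^ (C + D) := by rw [Real.rpow_add him0]; ring
    _ ≤ max (C * D) (C + D) * s.im ^ (max (C * D) (C + D)) := by
        have q1 : s.im ^ (C + D) ≤ s.im ^ (max (C * D) (C + D)) :=
          Real.rpow_le_rpow_of_exponent_le him (le_max_right _ _)
        have q2 : C * D ≤ max (C * D) (C + D) := le_max_left _ _
        have q3 : 0 ≤ s.im ^ (C + D) := Real.rpow_nonneg him0.le _
        gcongr

lemma pb_pow {f : ℂ → ℂ} (hf : PB f) (n : ℕ) : PB fun s => f s ^ n := by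
  induction n with
  | zero => simpa using pb_one
  | succ n ih =>
    have := pb_mul ih hf
    simpa [pow_succ] using this

lemma pb_prod {ι : Type*} (S : Finset ι) (f : ι → ℂ → ℂ) (hf : ∀ i, PB (f i)) :
    PB fun s => ∏ i ∈ S, f i s := by
  classical
  induction S using Finset.induction_on with
  | empty => simpa using pb_one
  | insert a S ha ih =>
    have := pb_mul (hf a) ih
    simpa [Finset.prod_insert ha] using this

lemma pb_root {f g : ℂ → ℂ} (N : ℕ) (hN : 1 ≤ N) (hg : PB g)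
    (h : ∀ s : ℂ, 0 < s.im → f s ^ N = g s) : PB f := by
  intro b
  obtain ⟨C, hC, h1⟩ := hg b
  refine ⟨max C 1, by positivity, fun s hs him => ?_⟩
  have him0 : 0 < s.im := by linarith
  have h2 := h1 s hs him
  rw [← h s him0, norm_pow] at h2
  have q1 : s.im ^ C ≤ s.im ^ (max C 1) :=
    Real.rpow_le_rpow_of_exponent_le him (le_max_left _ _)
  have q2 : C ≤ max C 1 := le_max_left _ _
  have q3 : 0 ≤ s.im ^ C := Real.rpow_nonneg him0.le _
  have q4 : 1 ≤ s.im ^ (max C 1) := Real.one_le_rpow him (by positivity)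
  by_cases h3 : ‖f s‖ ≤ 1
  · have : (1 : ℝ) ≤ max C 1 := le_max_right _ _
    calc ‖f s‖ ≤ 1 := h3
      _ ≤ max C 1 * s.im ^ (max C 1) := by nlinarith
  · push Not at h3
    calc ‖f s‖ = ‖f s‖ ^ 1 := (pow_one _).symm
      _ ≤ ‖f s‖ ^ N := pow_le_pow_right₀ h3.le hN
      _ ≤ C * s.im ^ C := h2
      _ ≤ max C 1 * s.im ^ (max C 1) := by gcongr

/-! ### reflection -/

lemma diff_refl {f : ℂ → ℂ} (hf : ∀ s : ℂ, 0 < s.im → DifferentiableAt ℂ f s) {s : ℂ}
    (hs : 0 < s.im) :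
    DifferentiableAt ℂ (fun w => (starRingEnd ℂ) (f (1 - (starRingEnd ℂ) w))) s := by
  have h1 : DifferentiableAt ℂ (fun w => f (1 - w)) ((starRingEnd ℂ) s) := by
    have h2 : DifferentiableAt ℂ f (1 - (starRingEnd ℂ) s) := hf _ (by simpa using hs)
    have h3 : DifferentiableAt ℂ (fun w : ℂ => 1 - w) ((starRingEnd ℂ) s) := by fun_prop
    exact h2.comp _ h3
  have h4 := h1.conj_conj
  rw [Complex.conj_conj] at h4
  exact h4

lemma gammaC_differentiableAt {s : ℂ} (hs : 0 < s.im) : DifferentiableAt ℂ Gammaℂ s := by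
  unfold Gammaℂ
  have hG : DifferentiableAt ℂ Gamma s := by
    apply differentiableAt_Gamma
    intro n hn
    rw [hn] at hs
    simp at hs
  have h2 : DifferentiableAt ℂ (fun s : ℂ => (2 * (Real.pi : ℂ)) ^ (-s)) s := by
    apply DifferentiableAt.const_cpow
    · exact differentiableAt_id.neg
    · left
      simp [Real.pi_ne_zero]
  exact (h2.const_mul 2).mul hG

lemma order_ne_top_of_ne {f : ℂ → ℂ} (hf : ∀ s : ℂ, 0 < s.im → DifferentiableAt ℂ f s) {p : ℂ}
    (hp : 0 < p.im) (hfp : f p ≠ 0) {z : ℂ} (hz : 0 < z.im) : analyticOrderAt f z ≠ ⊤ := by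
  intro h
  rw [analyticOrderAt_eq_top] at h
  have hU : IsOpen {s : ℂ | 0 < s.im} := isOpen_lt continuous_const Complex.continuous_im
  have hUc : IsPreconnected {s : ℂ | 0 < s.im} := (convex_halfSpace_im_gt 0).isPreconnected
  have hd : DifferentiableOn ℂ f {s : ℂ | 0 < s.im} := fun s hs => (hf s hs).differentiableWithinAt
  have h1 := (hd.analyticOnNhd hU).eqOn_zero_of_preconnected_of_eventuallyEq_zero hUc
    (show z ∈ {s : ℂ | 0 < s.im} from hz) h
  exact hfp (h1 hp)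

lemma ser_differentiableAt (h : ℕ → ℂ) (h0 : h 0 = 0) (hle : ∀ n, ‖h n‖ ≤ 1) {w : ℂ}
    (hw : 1 < w.re) : DifferentiableAt ℂ (fun w => ∑' m : ℕ, h m * (m : ℂ) ^ (-w)) w := by
  have h1 : (fun w => ∑' m : ℕ, h m * (m : ℂ) ^ (-w)) = LSeries h := by
    funext w
    exact Pool.Agent.H62.DL.ser_eq h h0 w
  rw [h1]
  refine (LSeries_hasDerivAt ?_).differentiableAt
  refine lt_of_le_of_lt (LSeries.abscissaOfAbsConv_le_of_le_const ⟨1, fun n _ => hle n⟩) ?_
  exact_mod_cast hw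

lemma zpow_split {x : ℂ} (hx : x ≠ 0) (a : ℤ) :
    x ^ a * x ^ (-a).toNat = x ^ a.toNat := by
  rcases le_total 0 a with h | h
  · rw [Int.toNat_of_nonpos (by omega : -a ≤ 0), pow_zero, mul_one, ← zpow_natCast,
      Int.toNat_of_nonneg h]
  · rw [Int.toNat_of_nonpos h, pow_zero, ← zpow_natCast, Int.toNat_of_nonneg (by omega),
      ← zpow_add₀ hx, add_neg_cancel, zpow_zero]

open scoped Classical in
theorem aa (hLK : T_LK) (hAE : T_AE) (hAC : T_AC) (hRT : T_RT) : T_AA := by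
  intro R Λ hRat hArt
  obtain ⟨N, S, a, h, hN, hchar, h0, h1, hm, hle, hΛ'⟩ := hAE R hRat
  have hΛ := hΛ' Λ hArt
  choose Z L hZ hLn hLnum hLden hLfe using fun H => hLK (FF R H)
  obtain ⟨c, hcc, hc⟩ := hAC R
  have hNC : (N : ℂ) ≠ 0 := by
    have : 0 < N := hN
    exact_mod_cast this.ne'
  have hZd : ∀ H (s : ℂ), 0 < s.im → DifferentiableAt ℂ (Z H) s := fun H s hs =>
    (hZ H).1 s hs.ne'
  have hZ1 : ∀ H (s : ℂ), 1 < s.re → Z H s ≠ 0 := fun H s hs => by
    rw [(hZ H).2 s hs]; exact (hΛ s hs).2.1 H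
  -- numerator and denominator
  obtain ⟨A, hA⟩ : ∃ A : ℂ → ℂ, A = fun w => ∏ H ∈ S, Z H w ^ (a H).toNat := ⟨_, rfl⟩
  obtain ⟨B, hB⟩ : ∃ B : ℂ → ℂ, B = fun w => ∏ H ∈ S, Z H w ^ (-a H).toNat := ⟨_, rfl⟩
  have hAd : ∀ s : ℂ, 0 < s.im → DifferentiableAt ℂ A s := fun s hs => by
    rw [hA]
    exact DifferentiableAt.fun_finsetProd fun H _ => (hZd H s hs).fun_pow _
  have hBd : ∀ s : ℂ, 0 < s.im → DifferentiableAt ℂ B s := fun s hs => by
    rw [hB]
    exact DifferentiableAt.fun_finsetProd fun H _ => (hZd H s hs).fun_pow _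
  have hB1 : ∀ s : ℂ, 1 < s.re → B s ≠ 0 := fun s hs => by
    rw [hB]
    exact Finset.prod_ne_zero_iff.2 fun H _ => pow_ne_zero _ (hZ1 H s hs)
  have hΛB : ∀ s : ℂ, 1 < s.re → Λ s ^ N * B s = A s := fun s hs => by
    rw [(hΛ s hs).2.2, hA, hB, ← Finset.prod_mul_distrib]
    refine Finset.prod_congr rfl fun H _ => ?_
    rw [← (hZ H).2 s hs]
    exact zpow_split (hZ1 H s hs) (a H)
  have hΛne : ∀ s : ℂ, 1 < s.re → Λ s ≠ 0 := fun s hs hz => by
    have h2 := hΛB s hs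
    rw [hz, zero_pow (by omega), zero_mul] at h2
    have h3 : A s ≠ 0 := by
      rw [hA]
      exact Finset.prod_ne_zero_iff.2 fun H _ => pow_ne_zero _ (hZ1 H s hs)
    exact h3 h2.symm
  have hΛd : ∀ s : ℂ, 1 < s.re → DifferentiableAt ℂ Λ s := fun s hs => by
    have h2 : DifferentiableAt ℂ (fun w => ∏ j, ∑' m : ℕ, h j m * (m : ℂ) ^ (-w)) s :=
      DifferentiableAt.fun_finsetProd fun j _ => ser_differentiableAt (h j) (h0 j) (hle j) hs
    refine h2.congr_of_eventuallyEq ?_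
    filter_upwards [(isOpen_lt continuous_const Complex.continuous_re).mem_nhds hs] with w hw
    exact (hΛ w hw).1
  obtain ⟨E, hEd, hE1, hEN, hEo⟩ := hRT.2 N Λ A B hN hArt.1 hAd hBd
    (fun s hs _ => ⟨hΛd s hs, hB1 s hs, hΛB s hs⟩)
  -- the involution
  obtain ⟨a0, b0, hab, htr⟩ := trace_involution (R.rho c) (by rw [← map_mul, hcc, map_one])
  have hrank : ∀ H : Subgroup (R.K ≃ₐ[ℚ] R.K), (pc H 1 : ℂ) =
      (nrRealPlaces (FF R H) : ℂ) + 2 * (nrComplexPlaces (FF R H) : ℂ) := fun H => by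
    rw [← (hc H).2, ← card_add_two_mul_card_eq_rank]
    push_cast
    rfl
  have hdim : LinearMap.trace ℂ R.V (R.rho 1) = (R.dim : ℂ) := by
    rw [map_one]
    exact LinearMap.trace_one ℂ R.V
  have e1 := hchar 1
  have e2 := hchar c
  rw [hdim] at e1
  rw [htr] at e2
  have hdim2 : (R.dim : ℂ) = (a0 : ℂ) + (b0 : ℂ) := by
    rw [← Nat.cast_add, hab]
    rfl
  have hNa : (N : ℤ) * a0 = ∑ H ∈ S, a H *
      ((nrRealPlaces (FF R H) + nrComplexPlaces (FF R H) : ℕ) : ℤ) := by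
    have e3 : (N : ℂ) * a0 = ∑ H ∈ S, (a H : ℂ) *
        ((nrRealPlaces (FF R H) : ℂ) + (nrComplexPlaces (FF R H) : ℂ)) := by
      have e4 : ∑ H ∈ S, (a H : ℂ) *
          ((nrRealPlaces (FF R H) : ℂ) + (nrComplexPlaces (FF R H) : ℂ)) =
          (1 / 2) * (∑ H ∈ S, (a H : ℂ) * (pc H 1 : ℂ) + ∑ H ∈ S, (a H : ℂ) * (pc H c : ℂ)) := by
        rw [← Finset.sum_add_distrib, Finset.mul_sum]
        refine Finset.sum_congr rfl fun H _ => ?_
        rw [hrank H, ← (hc H).1]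
        ring
      rw [e4, ← e1, ← e2, hdim2]
      ring
    have e5 : ((((N : ℤ) * a0 : ℤ)) : ℂ) = ((∑ H ∈ S, a H *
      ((nrRealPlaces (FF R H) + nrComplexPlaces (FF R H) : ℕ) : ℤ) : ℤ) : ℂ) := by
      push_cast
      exact e3
    exact_mod_cast e5
  have hNb : (N : ℤ) * b0 = ∑ H ∈ S, a H * ((nrComplexPlaces (FF R H) : ℕ) : ℤ) := by
    have e3 : (N : ℂ) * b0 = ∑ H ∈ S, (a H : ℂ) * (nrComplexPlaces (FF R H) : ℂ) := by
      have e4 : ∑ H ∈ S, (a H : ℂ) * (nrComplexPlaces (FF R H) : ℂ) =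
          (1 / 2) * (∑ H ∈ S, (a H : ℂ) * (pc H 1 : ℂ) - ∑ H ∈ S, (a H : ℂ) * (pc H c : ℂ)) := by
        rw [← Finset.sum_sub_distrib, Finset.mul_sum]
        refine Finset.sum_congr rfl fun H _ => ?_
        rw [hrank H, ← (hc H).1]
        ring
      rw [e4, ← e1, ← e2, hdim2]
      ring
    have e5 : ((((N : ℤ) * b0 : ℤ)) : ℂ) = ((∑ H ∈ S, a H *
      ((nrComplexPlaces (FF R H) : ℕ) : ℤ) : ℤ) : ℂ) := by
      push_cast
      exact e3
    exact_mod_cast e5
  -- natural number versions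
  have hsplit : ∀ (x : Subgroup (R.K ≃ₐ[ℚ] R.K) → ℕ) (n : ℕ),
      (N : ℤ) * n = ∑ H ∈ S, a H * (x H : ℤ) →
      N * n + ∑ H ∈ S, (-a H).toNat * x H = ∑ H ∈ S, (a H).toNat * x H := by
    intro x n hx
    have h2 : ((N * n + ∑ H ∈ S, (-a H).toNat * x H : ℕ) : ℤ) =
        ((∑ H ∈ S, (a H).toNat * x H : ℕ) : ℤ) := by
      push_cast
      rw [hx, ← Finset.sum_add_distrib]
      refine Finset.sum_congr rfl fun H _ => ?_
      rw [← add_mul]
      congr 1
      omega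
    exact_mod_cast h2
  have hNa' := hsplit (fun H => nrRealPlaces (FF R H) + nrComplexPlaces (FF R H)) a0 hNa
  have hNb' := hsplit (fun H => nrComplexPlaces (FF R H)) b0 hNb
  -- the discriminants
  obtain ⟨lD, hlD⟩ : ∃ lD : Subgroup (R.K ≃ₐ[ℚ] R.K) → ℝ,
      lD = fun H => Real.log |(discr (FF R H) : ℝ)| := ⟨_, rfl⟩
  have hd0 : ∀ H, 0 < |(discr (FF R H) : ℝ)| := fun H =>
    abs_pos.2 (by exact_mod_cast discr_ne_zero (FF R H))
  obtain ⟨lA, hlA⟩ : ∃ lA : ℝ, lA = (∑ H ∈ S, (a H : ℝ) * lD H) / N := ⟨_, rfl⟩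
  have hlA' : (N : ℝ) * lA + ∑ H ∈ S, ((-a H).toNat : ℝ) * lD H =
      ∑ H ∈ S, ((a H).toNat : ℝ) * lD H := by
    have hNR : (N : ℝ) ≠ 0 := by
      have : 0 < N := hN
      exact_mod_cast this.ne'
    rw [hlA, mul_div_cancel₀ _ hNR, ← Finset.sum_add_distrib]
    refine Finset.sum_congr rfl fun H _ => ?_
    rw [← add_mul]
    congr 1
    have h3 : (a H : ℤ) + ((-a H).toNat : ℤ) = ((a H).toNat : ℤ) := by
      rcases le_total 0 (a H) with h4 | h4
      · rw [Int.toNat_of_nonneg h4, Int.toNat_of_nonpos (by omega)]; simp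
      · rw [Int.toNat_of_nonneg (by omega : 0 ≤ -a H), Int.toNat_of_nonpos h4]; simp
    exact_mod_cast h3
  -- the factors of the functional equations
  obtain ⟨P, hP⟩ : ∃ P : ℂ → ℂ, P = fun s => Gammaℂ s * Complex.cos (Real.pi * s / 2) := ⟨_, rfl⟩
  obtain ⟨Q, hQ⟩ : ∃ Q : ℂ → ℂ, Q = fun s => Gammaℂ s * Complex.sin (Real.pi * s / 2) := ⟨_, rfl⟩
  obtain ⟨yH, hyH⟩ : ∃ yH : Subgroup (R.K ≃ₐ[ℚ] R.K) → ℂ → ℂ, yH = fun H s =>
      cexp ((s - 1 / 2) * lD H) * P s ^ (nrRealPlaces (FF R H) + nrComplexPlaces (FF R H)) *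
        Q s ^ (nrComplexPlaces (FF R H)) := ⟨_, rfl⟩
  obtain ⟨y0, hy0⟩ : ∃ y0 : ℂ → ℂ, y0 = fun s => cexp ((s - 1 / 2) * lA) * P s ^ a0 * Q s ^ b0 :=
    ⟨_, rfl⟩
  have hfeH : ∀ H (s : ℂ), 0 < s.im →
      (starRingEnd ℂ) (Z H (1 - (starRingEnd ℂ) s)) = Z H s * yH H s := by
    intro H s hs
    rw [← hLfe H s hs, hyH, hP, hQ, hlD]
    congr 3
    rw [cpow_def_of_ne_zero (by exact_mod_cast (hd0 H).ne'), ← ofReal_log (hd0 H).le, mul_comm]
  have hyy : ∀ s : ℂ, y0 s ^ N * ∏ H ∈ S, yH H s ^ (-a H).toNat =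
      ∏ H ∈ S, yH H s ^ (a H).toNat := by
    intro s
    have hprod : ∀ x : Subgroup (R.K ≃ₐ[ℚ] R.K) → ℕ, ∏ H ∈ S, yH H s ^ x H =
        cexp ((s - 1 / 2) * ((∑ H ∈ S, (x H : ℝ) * lD H : ℝ) : ℂ)) *
          P s ^ (∑ H ∈ S, x H * (nrRealPlaces (FF R H) + nrComplexPlaces (FF R H))) *
          Q s ^ (∑ H ∈ S, x H * nrComplexPlaces (FF R H)) := by
      intro x
      rw [← Finset.prod_pow_eq_pow_sum, ← Finset.prod_pow_eq_pow_sum]
      push_cast
      rw [Finset.mul_sum, Complex.exp_sum, ← Finset.prod_mul_distrib, ← Finset.prod_mul_distrib]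
      refine Finset.prod_congr rfl fun H _ => ?_
      rw [hyH]
      simp only
      have t1 : cexp ((s - 1 / 2) * lD H) ^ x H = cexp ((s - 1 / 2) * ((x H : ℂ) * lD H)) := by
        rw [← Complex.exp_nat_mul]
        congr 1
        ring
      rw [mul_pow, mul_pow, t1, ← pow_mul, ← pow_mul, mul_comm (x H), mul_comm (x H)]
    rw [hprod, hprod, hy0]
    simp only
    rw [mul_pow, mul_pow, ← pow_mul, ← pow_mul, ← Complex.exp_nat_mul, ← hNa', ← hNb', ← hlA',
      pow_add, pow_add, mul_comm a0 N, mul_comm b0 N]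
    have e6 : cexp ((s - 1 / 2) * (((N : ℝ) * lA + ∑ H ∈ S, ((-a H).toNat : ℝ) * lD H : ℝ) : ℂ)) =
        cexp ((N : ℂ) * ((s - 1 / 2) * lA)) *
          cexp ((s - 1 / 2) * ((∑ H ∈ S, ((-a H).toNat : ℝ) * lD H : ℝ) : ℂ)) := by
      rw [← Complex.exp_add]
      congr 1
      push_cast
      ring
    rw [e6]
    ring
  have hAr : ∀ s : ℂ, 0 < s.im → (starRingEnd ℂ) (A (1 - (starRingEnd ℂ) s)) =
      A s * ∏ H ∈ S, yH H s ^ (a H).toNat := by
    intro s hs
    rw [hA, ← Finset.prod_mul_distrib]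
    simp only [map_prod, map_pow]
    refine Finset.prod_congr rfl fun H _ => ?_
    rw [hfeH H s hs, mul_pow]
  have hBr : ∀ s : ℂ, 0 < s.im → (starRingEnd ℂ) (B (1 - (starRingEnd ℂ) s)) =
      B s * ∏ H ∈ S, yH H s ^ (-a H).toNat := by
    intro s hs
    rw [hB, ← Finset.prod_mul_distrib]
    simp only [map_prod, map_pow]
    refine Finset.prod_congr rfl fun H _ => ?_
    rw [hfeH H s hs, mul_pow]
  -- the constant
  have hPd : ∀ s : ℂ, 0 < s.im → DifferentiableAt ℂ P s := fun s hs => by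
    rw [hP]
    have : DifferentiableAt ℂ (fun s : ℂ => Complex.cos (Real.pi * s / 2)) s := by fun_prop
    exact (gammaC_differentiableAt hs).mul this
  have hQd : ∀ s : ℂ, 0 < s.im → DifferentiableAt ℂ Q s := fun s hs => by
    rw [hQ]
    have : DifferentiableAt ℂ (fun s : ℂ => Complex.sin (Real.pi * s / 2)) s := by fun_prop
    exact (gammaC_differentiableAt hs).mul this
  have hy0d : ∀ s : ℂ, 0 < s.im → DifferentiableAt ℂ y0 s := fun s hs => by
    rw [hy0]
    have : DifferentiableAt ℂ (fun s : ℂ => cexp ((s - 1 / 2) * lA)) s := by fun_prop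
    exact (this.mul ((hPd s hs).fun_pow _)).mul ((hQd s hs).fun_pow _)
  obtain ⟨ω, hω, hωG⟩ := hRT.1 N
    (fun s => E s * y0 s * (starRingEnd ℂ) (B (1 - (starRingEnd ℂ) s)))
    (fun s => (starRingEnd ℂ) (E (1 - (starRingEnd ℂ) s)) * B s) hN
    (fun s hs => ((hEd s hs).mul (hy0d s hs)).mul (diff_refl hBd hs))
    (fun s hs => (diff_refl hEd hs).mul (hBd s hs))
    (fun s hs => by
      have him : 0 < (1 - (starRingEnd ℂ) s).im := by simpa using hs
      have e7 : ((starRingEnd ℂ) (E (1 - (starRingEnd ℂ) s))) ^ N =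
          (A s * ∏ H ∈ S, yH H s ^ (a H).toNat) *
            (B s * ∏ H ∈ S, yH H s ^ (-a H).toNat) ^ (N - 1) := by
        rw [← map_pow, hEN _ him, map_mul, map_pow, hAr s hs, hBr s hs]
      rw [mul_pow, mul_pow, mul_pow, e7, hEN s hs, hBr s hs, ← hyy s]
      obtain ⟨n, rfl⟩ : ∃ n, N = n + 1 := ⟨N - 1, by omega⟩
      rw [Nat.add_sub_cancel]
      ring)
  have hω1 : ‖ω‖ = 1 := norm_eq_one_of_pow_eq_one hω (by omega)
  have hω0 : ω ≠ 0 := by
    intro h2
    rw [h2, norm_zero] at hω1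
    exact zero_ne_one hω1
  -- growth
  have hpbZ : ∀ H, PB (Z H) := fun H b => by
    obtain ⟨C, hC, h2⟩ := (L H).growth b
    refine ⟨C, hC, fun s hs him => ?_⟩
    have h3 := (h2 s hs him).1
    rw [hLnum H] at h3
    exact h3
  have hpbB : PB B := by
    rw [hB]
    exact pb_prod S (fun H w => Z H w ^ (-a H).toNat) fun H => pb_pow (hpbZ H) _
  have hpbA : PB A := by
    rw [hA]
    exact pb_prod S (fun H w => Z H w ^ (a H).toNat) fun H => pb_pow (hpbZ H) _
  have hpbE : PB E := pb_root N hN (pb_mul hpbA (pb_pow hpbB (N - 1))) hEN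
  -- lower bound
  have hge : ∃ c : ℝ, 0 < c ∧ ∀ s : ℂ, 2 ≤ s.re → 1 ≤ s.im → c ≤ ‖B s‖ := by
    refine ⟨∏ H ∈ S, ((1 / 2 : ℝ) ^ (L H).n) ^ (-a H).toNat,
      Finset.prod_pos fun H _ => by positivity, fun s hs him => ?_⟩
    rw [hB]
    simp only
    rw [norm_prod]
    refine Finset.prod_le_prod (fun H _ => by positivity) fun H _ => ?_
    rw [norm_pow]
    refine pow_le_pow_left₀ (by positivity) ?_ _
    have h2 := (L H).series s (by linarith) (by linarith)
    rw [hLnum H, hLden H, one_mul] at h2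
    rw [h2, norm_prod]
    have e : ((1 : ℝ) / 2) ^ (L H).n = ∏ _k : Fin (L H).n, (1 : ℝ) / 2 := by simp
    rw [e]
    exact Finset.prod_le_prod (fun _ _ => by norm_num) fun k _ =>
      Pool.Agent.H62.DL.ser_ge _ ((L H).h_zero k) ((L H).h_one k) ((L H).h_mul k)
        ((L H).h_le k) _ hs
  refine ⟨{
    n := R.dim
    h := h
    h_zero := h0
    h_one := h1
    h_mul := hm
    h_le := hle
    κ := fun j => if (j : ℕ) < a0 then 0 else 1
    κ_mem := fun j => by
      split_ifs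
      · exact Or.inl rfl
      · exact Or.inr rfl
    A := Real.exp lA
    A_pos := Real.exp_pos _
    ε := ω⁻¹
    norm_ε := by rw [norm_inv, hω1, inv_one]
    num := E
    den := B
    diff := fun s hs => ⟨hEd s hs, hBd s hs⟩
    growth := fun b => by
      obtain ⟨C, hC, h2⟩ := hpbE b
      obtain ⟨D, hD, h3⟩ := hpbB b
      refine ⟨max C D, lt_max_of_lt_left hC, fun s hs him => ?_⟩
      have him0 : 0 < s.im := by linarith
      have key : ∀ X : ℝ, 0 < X → X ≤ max C D → X * s.im ^ X ≤ max C D * s.im ^ (max C D) := by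
        intro X hX hXm
        have q1 : s.im ^ X ≤ s.im ^ (max C D) := Real.rpow_le_rpow_of_exponent_le him hXm
        have q3 : 0 ≤ s.im ^ X := Real.rpow_nonneg him0.le _
        gcongr
      exact ⟨(h2 s hs him).trans (key C hC (le_max_left _ _)),
        (h3 s hs him).trans (key D hD (le_max_right _ _))⟩
    den_ne := fun s hs _ => hB1 s hs
    den_ge := hge
    series := fun s hs him => by
      rw [hE1 s hs him, (hΛ s hs).1, mul_comm]
    fe := fun s hs => by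
      have h2 := hωG s hs
      have h3 : ∏ j : Fin R.dim, Gammaℂ s *
          Complex.cos (Real.pi * (s - ((if (j : ℕ) < a0 then 0 else 1 : ℝ) : ℂ)) / 2) =
          P s ^ a0 * Q s ^ b0 := by
        have h4 := Pool.Agent.H48.DL.prod_split (n := R.dim) hab (P s) (Q s)
        rw [← h4]
        refine Finset.prod_congr rfl fun j _ => ?_
        split_ifs with hj
        · rw [hP]; simp
        · rw [hQ]
          simp only
          congr 1
          rw [← Complex.cos_sub_pi_div_two]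
          congr 1
          push_cast
          ring
      rw [h3, Real.log_exp]
      have h5 : E s * (ω⁻¹ * cexp ((s - 1 / 2) * lA) * (P s ^ a0 * Q s ^ b0)) *
          (starRingEnd ℂ) (B (1 - (starRingEnd ℂ) s)) =
          ω⁻¹ * (E s * y0 s * (starRingEnd ℂ) (B (1 - (starRingEnd ℂ) s))) := by
        rw [hy0]
        ring
      rw [h5, h2, inv_mul_cancel_left₀ hω0] }, rfl, fun z hz => ?_⟩
  have h2I : 0 < (2 + I : ℂ).im := by simp
  have h2I' : 1 < (2 + I : ℂ).re := by simp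
  refine ⟨order_ne_top_of_ne hBd h2I (hB1 _ h2I') hz, order_ne_top_of_ne hEd h2I ?_ hz,
    hEo z hz⟩
  rw [hE1 _ h2I' h2I]
  exact mul_ne_zero (hΛne _ h2I') (hB1 _ h2I')

end Pool.Agent.H25.HK
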