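import Pool.Agent.H25.HK.FG
import Pool.Agent.H25.HK.AA

/-!
# Members of the families: Artin L-functions with rational characters, Dirichlet L-functions
-/

set_option autoImplicit false

open Complex Filter Topology

namespace Pool.Agent.H25.HK

open Pool.Agent.H48.DL Pool.Agent.H25.DL Pool.Agent.H23.GLH

lemma good_artin (hAA : T_AA) (R : ArtinRep) (Λ : ℂ → ℂ) (h1 : Rat R) (h2 : IsArtin R Λ) :
    Good Λ R.dim := hAA R Λ h1 h2

lemma good_dirichlet (hDI : T_DI) (π : PrimChar) : Good π.L 1 := by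
  obtain ⟨L, hn, hnum, hden⟩ := hDI π
  refine ⟨L, hn, fun z hz => ?_⟩
  have h2I : 0 < (2 + I : ℂ).im := by simp
  have h2I' : 1 < (2 + I : ℂ).re := by simp
  have h1 : analyticOrderAt L.num z ≠ ⊤ :=
    order_ne_top_of_ne (fun s hs => (L.diff s hs).1) h2I
      (Pool.Agent.H62.DL.num_ne L _ h2I' h2I) hz
  have h3 : analyticOrderAt L.den z = 0 := by
    rw [hden]
    exact analyticOrderAt_eq_zero.2 (Or.inr one_ne_zero)
  have h2 : meromorphicOrderAt L.den z = 0 := by
    classical
    rw [hden, meromorphicOrderAt_const, if_neg one_ne_zero]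
  refine ⟨?_, h1, ?_⟩
  · rw [h3]
    exact ENat.zero_ne_top
  · rw [h2, add_zero, hnum]

end Pool.Agent.H25.HK
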