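import Pool.Agent.H25.HK.HE
import Pool.Agent.H25.HK.Mem
import Pool.Agent.H25.DL.All
import Pool.Agent.H3.HK.GA
import Pool.Agent.H3.HK.GM
import Pool.Agent.H3.HK.LB
import Pool.Agent.H3.HK.TH
import Pool.Agent.H11.HK.AE
import Pool.Agent.H11.HK.BD
import Pool.Agent.H11.HK.LK
import Pool.Agent.H11.HK.LP
import Pool.Agent.H11.HK.PW
import Pool.Agent.H11.HK.RT
import Pool.Agent.H11.HK.TR
import Pool.Agent.H16.HK.GS
import Pool.Agent.H16.HK.PO
import Pool.Agent.H16.HK.PS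
import Pool.Agent.H29.HK.AC
import Pool.Agent.H29.HK.AI
import Pool.Agent.H29.HK.PE
import Pool.Agent.H41.HK.BI
import Pool.Agent.H41.HK.G1
import Pool.Agent.H41.HK.GI
import Pool.Agent.H41.HK.JA
import Pool.Agent.H41.HK.UN
import Pool.Agent.H63.HK.CS
import Pool.Agent.H63.HK.DS
import Pool.Agent.H63.HK.DU
import Pool.Agent.H63.HK.WP
import Pool.Agent.H66.HK.FD
import Pool.Agent.H66.HK.ME
import Pool.Agent.H76.HK.EP
import Pool.Agent.H87.HK.CT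
import Pool.Agent.H87.HK.DC
import Pool.Agent.H87.HK.UI
import Pool.Agent.H87.HK.YC
import Pool.Agent.H94.HK.GW

/-!
# Hecke's theorem and Artin L-functions: assembly
-/

set_option autoImplicit false

namespace Pool.Agent.H25.HK

open Pool.Agent.H48.DL Pool.Agent.H25.DL Pool.Agent.H23.GLH

theorem T_PO_proved : T_PO :=
  Pool.Agent.H16.HK.po Pool.Agent.H16.HK.ps Pool.Agent.H3.HK.ga Pool.Agent.H16.HK.gs

theorem T_TH_proved : T_TH :=
  Pool.Agent.H3.HK.th_fe T_PO_proved Pool.Agent.H3.HK.gm Pool.Agent.H3.HK.lb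

theorem T_YC_proved : T_YC := Pool.Agent.H87.HK.yc_main

theorem T_UI_proved : T_UI := Pool.Agent.H87.HK.ui T_YC_proved

theorem T_CT_proved : T_CT := Pool.Agent.H87.HK.ct T_TH_proved

theorem T_DC_proved : T_DC :=
  Pool.Agent.H87.HK.dc T_TH_proved T_YC_proved Pool.Agent.H66.HK.fd

theorem T_GI_proved : T_GI :=
  Pool.Agent.H41.HK.gi Pool.Agent.H41.HK.ja Pool.Agent.H41.HK.g1 T_YC_proved

theorem T_DU_proved : T_DU := Pool.Agent.H63.HK.du

theorem T_CS_proved : T_CS := Pool.Agent.H63.HK.cs T_DU_proved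

theorem T_WP_proved : T_WP :=
  Pool.Agent.H63.HK.wp T_TH_proved T_UI_proved Pool.Agent.H66.HK.fd T_CT_proved T_DC_proved
    T_DU_proved T_YC_proved

theorem T_ME_proved : T_ME :=
  Pool.Agent.H66.HK.me Pool.Agent.H41.HK.bi Pool.Agent.H41.HK.un T_GI_proved
    Pool.Agent.H66.HK.fd T_TH_proved Pool.Agent.H63.HK.ds T_CT_proved T_YC_proved T_UI_proved

theorem T_HE_proved : T_HE :=
  he T_WP_proved T_ME_proved T_CS_proved Pool.Agent.H63.HK.ds T_DU_proved Pool.Agent.H11.HK.bd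

theorem T_EP_proved : T_EP := Pool.Agent.H76.HK.ep

theorem T_LK_proved : T_LK :=
  Pool.Agent.H11.HK.lk T_HE_proved Pool.Agent.H94.HK.gw T_EP_proved

theorem T_AE_proved : T_AE :=
  Pool.Agent.H11.HK.ae T_EP_proved Pool.Agent.H29.HK.pe Pool.Agent.H11.HK.tr
    Pool.Agent.H11.HK.pw Pool.Agent.H29.HK.ai Pool.Agent.H11.HK.lp Pool.Agent.H48.DL.al
    Pool.Agent.H48.DL.ah

theorem T_AA_proved : T_AA :=
  aa T_LK_proved T_AE_proved Pool.Agent.H29.HK.ac Pool.Agent.H11.HK.rt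

/-- Artin `L`-functions with rational character have the data of an `LF` -/
theorem final_artin (R : ArtinRep) (Λ : ℂ → ℂ) (h1 : Rat R) (h2 : IsArtin R Λ) :
    Good Λ R.dim :=
  good_artin T_AA_proved R Λ h1 h2

/-- primitive Dirichlet characters have the data of an `LF` -/
theorem final_dirichlet (π : PrimChar) : Good π.L 1 :=
  good_dirichlet Pool.Agent.H48.DL.di π

/-- the final theorem for all functions with the data of an `LF` -/
theorem final (k m : ℕ) (n : Fin k → ℕ) (Λ : Fin k → ℂ → ℂ) (r τ : Fin k → ℝ)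
    (n' : Fin m → ℕ) (M : Fin m → ℂ → ℂ) (ρ σ : Fin m → ℝ) (μ κ : ℝ)
    (hR : ∀ i, Good (Λ i) (n i)) (hS : ∀ j, Good (M j) (n' j)) (hμ : 0 < μ)
    (hr : ∀ i, μ ≤ r i) (hρ : ∀ j, μ ≤ ρ j)
    (hd0 : 0 < ∑ i, r i * n i - ∑ j, ρ j * n' j)
    (hdμ : ∑ i, r i * n i - ∑ j, ρ j * n' j < μ)
    (hκ : 1 / 2 + (∑ i, r i * n i - ∑ j, ρ j * n' j) / (2 * μ) < κ) (hκ1 : κ ≤ 1) :
    ∃ A T₀ : ℝ, 0 < A ∧ ∀ T W : ℝ, T₀ ≤ T → T ^ κ ≤ W → W ≤ T → ∃ Z : Finset ℂ,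
      W / Real.log T ^ A ≤ Z.card ∧ ∀ z ∈ Z, T ≤ z.im ∧ z.im ≤ T + W ∧
        ∑ i, meromorphicOrderAt (Λ i) (DL.wl (r i) (τ i) z) <
          ∑ j, meromorphicOrderAt (M j) (DL.wl (ρ j) (σ j) z) :=
  fg T_FI2_proved k m n Λ r τ n' M ρ σ μ κ hR hS hμ hr hρ hd0 hdμ hκ hκ1

end Pool.Agent.H25.HK
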