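import Pool.Agent.H25.HK.FR
import Pool.Agent.H25.DL.Targets3
import Pool.Agent.H48.DL.Ord

/-!
# (FG) the final theorem for all functions with the data of an `LF`
-/

set_option autoImplicit false

open Complex Filter Topology

namespace Pool.Agent.H25.HK

open Pool.Agent.H48.DL Pool.Agent.H25.DL

/-- `Λ` is a quotient `num / den` of an `LF` of degree `n`, on the upper half plane and up to
isolated points -/
def Good (Λ : ℂ → ℂ) (n : ℕ) : Prop :=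
  ∃ L : LF, L.n = n ∧ ∀ z : ℂ, 0 < z.im → analyticOrderAt L.den z ≠ ⊤ ∧
    analyticOrderAt L.num z ≠ ⊤ ∧
      meromorphicOrderAt Λ z + meromorphicOrderAt L.den z = meromorphicOrderAt L.num z

theorem fg (hFI : T_FI2) (k m : ℕ) (n : Fin k → ℕ) (Λ : Fin k → ℂ → ℂ) (r τ : Fin k → ℝ)
    (n' : Fin m → ℕ) (M : Fin m → ℂ → ℂ) (ρ σ : Fin m → ℝ) (μ κ : ℝ)
    (hR : ∀ i, Good (Λ i) (n i)) (hS : ∀ j, Good (M j) (n' j)) (hμ : 0 < μ)
    (hr : ∀ i, μ ≤ r i) (hρ : ∀ j, μ ≤ ρ j)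
    (hd0 : 0 < ∑ i, r i * n i - ∑ j, ρ j * n' j)
    (hdμ : ∑ i, r i * n i - ∑ j, ρ j * n' j < μ)
    (hκ : 1 / 2 + (∑ i, r i * n i - ∑ j, ρ j * n' j) / (2 * μ) < κ) (hκ1 : κ ≤ 1) :
    ∃ A T₀ : ℝ, 0 < A ∧ ∀ T W : ℝ, T₀ ≤ T → T ^ κ ≤ W → W ≤ T → ∃ Z : Finset ℂ,
      W / Real.log T ^ A ≤ Z.card ∧ ∀ z ∈ Z, T ≤ z.im ∧ z.im ≤ T + W ∧
        ∑ i, meromorphicOrderAt (Λ i) (DL.wl (r i) (τ i) z) <
          ∑ j, meromorphicOrderAt (M j) (DL.wl (ρ j) (σ j) z) := by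
  choose L hLn hL using hR
  choose L' hLn' hL' using hS
  let F : Fam :=
    { I := Fin k
      J := Fin m
      fI := inferInstance
      fJ := inferInstance
      p := fun i => ⟨L i, r i, τ i, hμ.trans_le (hr i)⟩
      q := fun j => ⟨L' j, ρ j, σ j, hμ.trans_le (hρ j)⟩ }
  have hFd : F.d = ∑ i, r i * n i - ∑ j, ρ j * n' j := by
    change ∑ i, r i * ((L i).n : ℝ) - ∑ j, ρ j * ((L' j).n : ℝ) = _
    simp only [hLn, hLn']
  obtain ⟨A, T₀, hA, h⟩ := hFI F μ κ (by rw [hFd]; exact hd0) (by rw [hFd]; exact hdμ) hr hρ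
    (by rw [hFd]; exact hκ) hκ1
  obtain ⟨T₁, hT₁⟩ := exists_height r τ μ hμ hr
  obtain ⟨T₂, hT₂⟩ := exists_height ρ σ μ hμ hρ
  refine ⟨A, max (max T₀ 0) (max T₁ T₂), hA, fun T W hT hW hWT => ?_⟩
  have hT0 : 0 ≤ T := ((le_max_right _ _).trans (le_max_left _ _)).trans hT
  obtain ⟨Z, hZ, hz⟩ := h T W (((le_max_left _ _).trans (le_max_left _ _)).trans hT) hW hWT
  refine ⟨Z, hZ, fun z hzZ => ?_⟩
  obtain ⟨h1', h2, h3⟩ := hz z hzZ
  have h1 : T / 4 ≤ z.im := by linarith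
  refine ⟨h1', h2, ?_⟩
  have hp : ∀ i, 0 < (wl (r i) (τ i) z).im :=
    hT₁ T (((le_max_left _ _).trans (le_max_right _ _)).trans hT) z h1
  have hq : ∀ j, 0 < (wl (ρ j) (σ j) z).im :=
    hT₂ T (((le_max_right _ _).trans (le_max_right _ _)).trans hT) z h1
  have hN := order_N F z hp hq
  have hM := order_M F z hp hq
  -- natural orders
  have key : ∀ (E : LF) (Λ : ℂ → ℂ) (w : ℂ), 0 < w.im →
      (analyticOrderAt E.den w ≠ ⊤ ∧ analyticOrderAt E.num w ≠ ⊤ ∧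
        meromorphicOrderAt Λ w + meromorphicOrderAt E.den w = meromorphicOrderAt E.num w) →
      ∃ a b : ℕ, analyticOrderAt E.num w = (a : ℕ∞) ∧ analyticOrderAt E.den w = (b : ℕ∞) ∧
        meromorphicOrderAt Λ w = (((a : ℤ) - (b : ℤ) : ℤ) : WithTop ℤ) := by
    intro E Λ w hw ⟨h1, h2, h3⟩
    have a1 : AnalyticAt ℂ E.num w := analyticAt_of_im_pos (fun s hs => (E.diff s hs).1) hw
    have a2 : AnalyticAt ℂ E.den w := analyticAt_of_im_pos (fun s hs => (E.diff s hs).2) hw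
    obtain ⟨a, ha⟩ := ENat.ne_top_iff_exists.1 h2
    obtain ⟨b, hb⟩ := ENat.ne_top_iff_exists.1 h1
    refine ⟨a, b, ha.symm, hb.symm, ?_⟩
    rw [a1.meromorphicOrderAt_eq, a2.meromorphicOrderAt_eq, ← ha, ← hb, ENat.map_natCast,
      ENat.map_natCast] at h3
    by_cases hΛ : meromorphicOrderAt Λ w = ⊤
    · rw [hΛ, top_add] at h3
      exact absurd h3.symm (WithTop.coe_ne_top (a := (a : ℤ)))
    · obtain ⟨x, hx⟩ := WithTop.ne_top_iff_exists.1 hΛ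
      rw [← hx] at h3 ⊢
      have h4 : x + (b : ℤ) = (a : ℤ) := by exact_mod_cast h3
      have h5 : x = (a : ℤ) - (b : ℤ) := by linarith
      rw [h5]
  choose a b hab1 hab2 hab3 using fun i => key (L i) (Λ i) (wl (r i) (τ i) z) (hp i) (hL i _ (hp i))
  choose a' b' hab1' hab2' hab3' using
    fun j => key (L' j) (M j) (wl (ρ j) (σ j) z) (hq j) (hL' j _ (hq j))
  have hN' : analyticOrderAt F.N z = ((∑ i, a i + ∑ j, b' j : ℕ) : ℕ∞) := by
    rw [hN]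
    change (∑ i, analyticOrderAt (L i).num (wl (r i) (τ i) z)) +
      ∑ j, analyticOrderAt (L' j).den (wl (ρ j) (σ j) z) = _
    simp only [hab1, hab2']
    push_cast
    rfl
  have hM' : analyticOrderAt F.M z = ((∑ i, b i + ∑ j, a' j : ℕ) : ℕ∞) := by
    rw [hM]
    change (∑ i, analyticOrderAt (L i).den (wl (r i) (τ i) z)) +
      ∑ j, analyticOrderAt (L' j).num (wl (ρ j) (σ j) z) = _
    simp only [hab2, hab1']
    push_cast
    rfl
  have h4 : analyticOrderAt F.N z < analyticOrderAt F.M z := h3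
  rw [hN', hM', ENat.natCast_lt_natCast] at h4
  have e1 : ∑ i, meromorphicOrderAt (Λ i) (wl (r i) (τ i) z) =
      ((∑ i, ((a i : ℤ) - (b i : ℤ)) : ℤ) : WithTop ℤ) := by
    rw [← sum_coeW]
    exact Finset.sum_congr rfl fun i _ => hab3 i
  have e2 : ∑ j, meromorphicOrderAt (M j) (wl (ρ j) (σ j) z) =
      ((∑ j, ((a' j : ℤ) - (b' j : ℤ)) : ℤ) : WithTop ℤ) := by
    rw [← sum_coeW]
    exact Finset.sum_congr rfl fun j _ => hab3' j
  rw [e1, e2, WithTop.coe_lt_coe, Finset.sum_sub_distrib, Finset.sum_sub_distrib]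
  have h5 : (∑ i, (a i : ℤ) + ∑ j, (b' j : ℤ)) < (∑ i, (b i : ℤ) + ∑ j, (a' j : ℤ)) := by
    exact_mod_cast h4
  linarith

end Pool.Agent.H25.HK
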